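import Pool.Agent.H86.FQ.Hlp

/-!
Elimination of P (module ELM of fq_modules, MP_70ba79_ag).
-/

set_option autoImplicit false

namespace Pool.Agent.H86.FQ.ELM

open Pool.Agent.H30.FQ SC Pool.Agent.H27.LV Polynomial Pool.Agent.H86.FQ

/-- if a polynomial of degree at most one divides a square (up to a unit), it divides -/
lemma dvd_of_sq {K : Type} [Field K] {B A : K[X]} (hB0 : B ≠ 0) (hB : B.natDegree ≤ 1)
    (h : B ∣ A ^ 2) : B ∣ A := by
  by_cases hd : B.natDegree = 1
  · have hp : Prime B := (irreducible_of_degree_eq_one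
      ((degree_eq_iff_natDegree_eq hB0).2 (by rw [hd]; rfl))).prime
    exact hp.dvd_of_dvd_pow h
  · have h0 : B.natDegree = 0 := by omega
    have hu : IsUnit B := by
      rw [isUnit_iff_degree_eq_zero, degree_eq_natDegree hB0, h0]
      rfl
    exact hu.dvd

lemma elim_deg {K : Type} [Field K] [CharZero K] {M γ : K[X]} {β : K} (hγ : γ.natDegree ≤ 2)
    (h : C (120 / 7 : K) * M ^ 2 + C β * M + γ = 0) : M.natDegree ≤ 1 := by
  by_contra hcon
  push Not at hcon
  have h1 : C (120 / 7 : K) * M ^ 2 = -(C β * M + γ) := by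
    linear_combination h
  have h2 : (C (120 / 7 : K) * M ^ 2).natDegree = 2 * M.natDegree := by
    rw [natDegree_C_mul (by norm_num), natDegree_pow]
  have h3 : (-(C β * M + γ)).natDegree ≤ max M.natDegree 2 := by
    rw [natDegree_neg]
    refine (natDegree_add_le _ _).trans (max_le_max (natDegree_C_mul_le _ _) hγ)
  rw [← h1, h2] at h3
  rcases le_total M.natDegree 2 with h4 | h4
  · rw [max_eq_right h4] at h3
    omega
  · rw [max_eq_left h4] at h3
    omega

theorem elm (h1 : T_SMP) (h2 : T_ROOT) : T_ELM := by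
  intro k K _ _ _ _ _ _ htr w hw hwf e e1 e2 e3 κ κ1 κ2 Q S P he he1 he2 he3 hκ hκ1 hκ2 hQ hF hF1
  have hK0 : CharZero K := charZero_of_injective_algebraMap (algebraMap k K).injective
  have c := Cl.of h1 w hw
  have hW := sum_nonneg hw
  have hroot : ∀ (ω : ℕ) (f : K[X]), SmP w ω f → f ≠ 0 → f.eval S = 0 → (ω : ℤ) ≤ 10 →
      hh k S ≤ 20 * ∑ᶠ v, w v := by
    intro ω f hf hf0 hfS hω
    have h := h2 k K htr w hw hwf ω f hf hf0 S hfS
    nlinarith
  have hcK : ∀ r : ℚ, algebraMap k K ((r : ℚ) : k) = ((r : ℚ) : K) := fun r => by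
    exact map_ratCast (algebraMap k K) r
  have num : ∀ (r : ℚ) {j : ℕ} {f : K}, Sm w j f → Sm w j ((r : K) * f) := fun r j f hf =>
    smn _ (hcK r) hf
  unfold eqF at hF
  unfold eqF1 at hF1
  -- coefficients
  set a2 : K := 45 / 32 * e1 + 15 / 2 * κ1 with ha2
  set a1 : K := 31 / 56 * e ^ 2 + 177 / 14 * e * κ + 15 / 32 * e2 + 153 / 2 * κ ^ 2 +
    3 / 2 * κ2 + 8 * Q with ha1
  set a0 : K := 69 / 448 * e * e1 + 9 / 14 * e * κ1 + 53 / 32 * e1 * κ + e3 / 32 +
    9 * κ * κ1 with ha0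
  set b1 : K := (81 * e + 846 * κ) / 7 with hb1
  set b0 : K := 183 / 56 * e1 + 216 / 7 * κ1 with hb0
  set β : K := (11 * e + 186 * κ) / 7 with hβ
  set g2 : K := e + 6 * κ with hg2
  set g1 : K := 13 / 32 * e1 + 3 / 2 * κ1 with hg1
  set g0 : K := e ^ 2 / 28 + 3 / 7 * e * κ + 3 * κ ^ 2 + e2 / 32 + 4 * Q with hg0
  have sa2 : Sm w 3 a2 := smc ((num (45 / 32) he1).add (num (15 / 2) hκ1)) rfl (by
    rw [ha2]; push_cast; ring)
  have see : Sm w 4 (e ^ 2) := smc (he.pow 2) (by norm_num) rfl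
  have sek : Sm w 4 (e * κ) := smc (he.mul hκ) (by norm_num) rfl
  have skk : Sm w 4 (κ ^ 2) := smc (hκ.pow 2) (by norm_num) rfl
  have sa1 : Sm w 4 a1 := smc ((((((num (31 / 56) see).add (num (177 / 14) sek)).add
    (num (15 / 32) he2)).add (num (153 / 2) skk)).add (num (3 / 2) hκ2)).add (num 8 hQ)) rfl (by
    rw [ha1]; push_cast; ring)
  have see1 : Sm w 5 (e * e1) := smc (he.mul he1) (by norm_num) rfl
  have sek1 : Sm w 5 (e * κ1) := smc (he.mul hκ1) (by norm_num) rfl
  have se1k : Sm w 5 (e1 * κ) := smc (he1.mul hκ) (by norm_num) rfl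
  have skk1 : Sm w 5 (κ * κ1) := smc (hκ.mul hκ1) (by norm_num) rfl
  have sa0 : Sm w 5 a0 := smc (((((num (69 / 448) see1).add (num (9 / 14) sek1)).add
    (num (53 / 32) se1k)).add (num (1 / 32) he3)).add (num 9 skk1)) rfl (by
    rw [ha0]; push_cast; ring)
  have sb1 : Sm w 2 b1 := smc ((num (81 / 7) he).add (num (846 / 7) hκ)) rfl (by
    rw [hb1]; push_cast; ring)
  have sb0 : Sm w 3 b0 := smc ((num (183 / 56) he1).add (num (216 / 7) hκ1)) rfl (by
    rw [hb0]; push_cast; ring)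
  have sβ : Sm w 2 β := smc ((num (11 / 7) he).add (num (186 / 7) hκ)) rfl (by
    rw [hβ]; push_cast; ring)
  have sg2 : Sm w 2 g2 := smc (he.add (num 6 hκ)) rfl (by rw [hg2]; push_cast; ring)
  have sg1 : Sm w 3 g1 := smc ((num (13 / 32) he1).add (num (3 / 2) hκ1)) rfl (by
    rw [hg1]; push_cast; ring)
  have sg0 : Sm w 4 g0 := smc (((((num (1 / 28) see).add (num (3 / 7) sek)).add
    (num 3 skk)).add (num (1 / 32) he2)).add (num 4 hQ)) rfl (by rw [hg0]; push_cast; ring)
  have pX : SmP w 1 (X : K[X]) := c.var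
  have pX2 : SmP w 2 (X ^ 2 : K[X]) := spc (c.pow pX 2) (by norm_num) rfl
  have s120 : Sm w 0 (120 / 7 : K) := by
    have h := sm_const w (((120 / 7 : ℚ) : ℚ) : k)
    rw [hcK] at h
    refine smc h rfl ?_
    push_cast
    ring
  set A : K[X] := C a2 * X ^ 2 + C a1 * X + C a0 with hA
  set B : K[X] := C b1 * X + C b0 with hB
  set γ : K[X] := C g2 * X ^ 2 + C g1 * X + C g0 with hγ
  have pA : SmP w 5 A := c.add _ _ _ (c.add _ _ _ (c.cmul sa2 pX2) (c.cmul sa1 pX)) (c.cst _ _ sa0)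
  have pB : SmP w 3 B := c.add _ _ _ (c.cmul sb1 pX) (c.cst _ _ sb0)
  have pγ : SmP w 4 γ := c.add _ _ _ (c.add _ _ _ (c.cmul sg2 pX2) (c.cmul sg1 pX)) (c.cst _ _ sg0)
  have pR : SmP w 10 (C (120 / 7 : K) * A ^ 2 - C β * A * B + γ * B ^ 2) := by
    refine c.add _ _ _ (c.sub ?_ ?_) ?_
    · exact spc (c.cmul s120 (c.pow pA 2)) (by norm_num) rfl
    · exact spc (c.mul _ _ _ _ (c.cmul sβ pA) pB) (by norm_num) rfl
    · exact spc (c.mul _ _ _ _ pγ (c.pow pB 2)) (by norm_num) rfl
  have eA : A.eval S = a2 * S ^ 2 + a1 * S + a0 := by simp [hA]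
  have eB : B.eval S = b1 * S + b0 := by simp [hB]
  have eγ : γ.eval S = g2 * S ^ 2 + g1 * S + g0 := by simp [hγ]
  have hFA : A.eval S = - (B.eval S * P) := by
    rw [eA, eB]
    linear_combination hF1
  have hFγ : 120 / 7 * P ^ 2 + β * P + γ.eval S = 0 := by
    rw [eγ]
    linear_combination hF
  by_cases hR : C (120 / 7 : K) * A ^ 2 - C β * A * B + γ * B ^ 2 = 0
  swap
  · left
    refine hroot 10 _ pR hR ?_ (by norm_num)
    simp only [eval_add, eval_sub, eval_mul, eval_pow, eval_C]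
    rw [hFA]
    linear_combination (B.eval S) ^ 2 * hFγ
  by_cases hB0 : B = 0
  · right
    left
    have hA0 : A = 0 := by
      rw [hB0] at hR
      have h3 : C (120 / 7 : K) * A ^ 2 = 0 := by
        linear_combination hR
      rcases mul_eq_zero.1 h3 with h4 | h4
      · exfalso
        rw [C_eq_zero] at h4
        norm_num at h4
      · exact pow_eq_zero_iff (n := 2) (by norm_num) |>.1 h4
    have h5 : b1 = 0 := by
      have := congrArg (fun f : K[X] => f.coeff 1) hB0
      simpa [hB] using this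
    have h6 : b0 = 0 := by
      have := congrArg (fun f : K[X] => f.coeff 0) hB0
      simpa [hB] using this
    have h7 : a1 = 0 := by
      have := congrArg (fun f : K[X] => f.coeff 1) hA0
      simpa [hA, coeff_X_pow, coeff_C] using this
    refine ⟨?_, h6, h7⟩
    rw [hb1] at h5
    linear_combination 7 * h5
  by_cases hBS : B.eval S = 0
  · left
    exact hroot 3 _ pB hB0 hBS (by norm_num)
  right
  right
  have hBd : B.natDegree ≤ 1 := by
    rw [hB]
    exact natDegree_linear_le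
  have hdvd : B ∣ A := by
    apply dvd_of_sq hB0 hBd
    have h3 : A ^ 2 = B * (C (7 / 120 : K) * (C β * A - γ * B)) := by
      have h4 : (C (7 / 120 : K) * C (120 / 7 : K) : K[X]) = 1 := by
        rw [← C_mul]
        norm_num
      linear_combination C (7 / 120 : K) * hR - A ^ 2 * h4
    exact ⟨_, h3⟩
  obtain ⟨N, hN⟩ := hdvd
  have hM : C (120 / 7 : K) * (-N) ^ 2 + C β * (-N) + γ = 0 := by
    have h3 : B ^ 2 * (C (120 / 7 : K) * (-N) ^ 2 + C β * (-N) + γ) = 0 := by
      rw [hN] at hR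
      linear_combination hR
    rcases mul_eq_zero.1 h3 with h4 | h4
    · exact (hB0 (pow_eq_zero_iff (n := 2) (by norm_num) |>.1 h4)).elim
    · exact h4
  have hγd : γ.natDegree ≤ 2 := by
    rw [hγ]
    exact natDegree_quadratic_le
  have hMd := elim_deg hγd hM
  obtain ⟨m1, m0, hm⟩ := exists_eq_X_add_C_of_natDegree_le_one hMd
  refine ⟨m1, m0, ?_, ?_, ?_⟩
  · have h3 : A.eval S = - (B.eval S * (m1 * S + m0)) := by
      rw [hN, eval_mul]
      have h4 : N.eval S = -(m1 * S + m0) := by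
        have h5 : N = -(C m1 * X + C m0) := by rw [← hm, neg_neg]
        rw [h5]
        simp
      rw [h4]
      ring
    rw [hFA] at h3
    have h4 : B.eval S * (P - (m1 * S + m0)) = 0 := by linear_combination -h3
    rcases mul_eq_zero.1 h4 with h5 | h5
    · exact (hBS h5).elim
    · exact sub_eq_zero.1 h5
  · have h3 := congrArg (fun f : K[X] => f.coeff 2) hM
    rw [hm, hγ] at h3
    have h4 : (C (120 / 7 : K) * (C m1 * X + C m0) ^ 2 + C β * (C m1 * X + C m0) +
        (C g2 * X ^ 2 + C g1 * X + C g0) : K[X]) =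
        C (120 / 7 * m1 ^ 2 + g2) * X ^ 2 + C (240 / 7 * m1 * m0 + β * m1 + g1) * X +
          C (120 / 7 * m0 ^ 2 + β * m0 + g0) := by
      have h5 : (C (240 / 7 : K) : K[X]) = 2 * C (120 / 7 : K) := by
        have : (2 : K[X]) = C (2 : K) := (map_ofNat C 2).symm
        rw [this, ← C_mul]
        norm_num
      simp only [C_add, C_mul, C_pow, h5]
      ring
    rw [h4] at h3
    have h5 : 120 / 7 * m1 ^ 2 + g2 = 0 := by
      simp only [coeff_add, coeff_C_mul, coeff_X_pow, coeff_X, coeff_C, coeff_zero] at h3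
      norm_num at h3
      exact h3
    rw [hg2] at h5
    linear_combination 7 * h5
  · have h3 := congrArg (fun f : K[X] => f.eval 0) hM
    rw [hm, hγ] at h3
    have h5 : 120 / 7 * m0 ^ 2 + β * m0 + g0 = 0 := by
      simpa using h3
    linear_combination h5

end Pool.Agent.H86.FQ.ELM
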