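import Pool.Agent.H86.FQ.Hlp

/-!
The linear case (module LIN of fq_modules, MP_70ba79_ag).
-/

set_option autoImplicit false

namespace Pool.Agent.H86.FQ.LIN

open Pool.Agent.H30.FQ SC Pool.Agent.H27.LV Polynomial Pool.Agent.H86.FQ

theorem lin (h1 : T_SMP) (h2 : T_ROOT) : T_LIN := by
  intro k K _ _ _ _ _ _ htr w hw hwf D l e e1 e2 κ Q S P μ ν a b p q hD hl he he1 he2 hκ hQ
    hP hμ hν h7 h8 h9 h10 h11
  have hK0 : CharZero K := charZero_of_injective_algebraMap (algebraMap k K).injective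
  have c := Cl.of h1 w hw
  have hW := sum_nonneg hw
  have hroot : ∀ (ω : ℕ) (f : K[X]), SmP w ω f → f ≠ 0 → f.eval S = 0 → (ω : ℤ) ≤ 10 →
      hh k S ≤ 20 * ∑ᶠ v, w v := by
    intro ω f hf hf0 hfS hω
    have h := h2 k K htr w hw hwf ω f hf hf0 S hfS
    nlinarith
  -- μ and ν are small
  have hcK : ∀ r : ℚ, algebraMap k K ((r : ℚ) : k) = ((r : ℚ) : K) := fun r => by
    exact map_ratCast (algebraMap k K) r
  have hmu : Sm w 1 μ := by
    apply sm_sqrt
    have h3 : μ ^ 2 = (((-7 / 120 : ℚ) : ℚ) : K) * (e + ((6 : ℚ) : K) * κ) := by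
      push_cast
      linear_combination (1 / 120 : K) * hμ
    rw [h3]
    exact smn _ (hcK _) (he.add (smn _ (hcK _) hκ))
  have hnu : Sm w 2 ν := by
    have h3 : ν ^ 2 = ((((-7 / 120 : ℚ) : ℚ) : K) * (((11 / 7 : ℚ) : K) * e + ((186 / 7 : ℚ) : K) * κ)) * ν
        + (((-7 / 120 : ℚ) : ℚ) : K) * (((1 / 28 : ℚ) : K) * e ^ 2 + ((3 / 7 : ℚ) : K) * (e * κ) +
          ((3 : ℚ) : K) * κ ^ 2 + ((1 / 32 : ℚ) : K) * e2 + ((4 : ℚ) : K) * Q) := by
      push_cast
      linear_combination (7 / 120 : K) * hν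
    refine sm_quad h3 ?_ ?_
    · exact smn _ (hcK _) ((smn _ (hcK _) he).add (smn _ (hcK _) hκ))
    · refine smn _ (hcK _) (Sm.add (Sm.add (Sm.add (Sm.add ?_ ?_) ?_) ?_) ?_)
      · exact smn _ (hcK _) (smc (he.pow 2) (by norm_num) rfl)
      · exact smn _ (hcK _) (smc (he.mul hκ) (by norm_num) rfl)
      · exact smn _ (hcK _) (smc (hκ.pow 2) (by norm_num) rfl)
      · exact smn _ (hcK _) he2
      · exact smn _ (hcK _) hQ
  -- small polynomials
  have pX : SmP w 1 (X : K[X]) := c.var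
  have pM : SmP w 2 (C μ * X + C ν) := c.add _ _ _ (c.cmul hmu pX) (c.cst _ _ hnu)
  have pX2 : SmP w 2 (X ^ 2 : K[X]) := spc (c.pow pX 2) (by norm_num) rfl
  have pX3 : SmP w 3 (X ^ 3 : K[X]) := spc (c.pow pX 3) (by norm_num) rfl
  have pL : SmP w 3 (3 * X ^ 3 - C (78 / 7 : K) * X * (C μ * X + C ν) -
      C (3 / 28 * e + 3 / 2 * κ) * X - C (e1 / 32)) := by
    refine c.sub (c.sub (c.sub (c.ofNat_mul 3 pX3) ?_) ?_) ?_
    · have h3 : Sm w 0 (78 / 7 : K) := by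
        have := sm_const w (((78 / 7 : ℚ) : ℚ) : k)
        rw [hcK] at this
        simpa using this
      exact c.mul _ _ _ _ (c.cmul h3 pX) pM
    · have h3 : Sm w 2 (3 / 28 * e + 3 / 2 * κ : K) := by
        have h4 := (smn (((3 / 28 : ℚ) : ℚ) : k) (hcK _) he).add
          (smn (((3 / 2 : ℚ) : ℚ) : k) (hcK _) hκ)
        simpa using h4
      exact c.cmul h3 pX
    · have h3 : Sm w 3 (e1 / 32 : K) := by
        have h4 := (smn (((1 / 32 : ℚ) : ℚ) : k) (hcK _) he1)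
        refine smc h4 rfl ?_
        push_cast
        ring
      exact c.cst _ _ h3
  have pR : SmP w 6 ((X ^ 2 - 4 * (C μ * X + C ν)) *
        ((C (1 / 7 : K) * (C e + 21 * X ^ 2 - 36 * (C μ * X + C ν))) ^ 2 + 4 * C Q)) := by
    refine spc (c.mul 2 4 _ _ (c.sub pX2 (c.ofNat_mul 4 pM)) (c.add _ _ _ ?_
      (c.ofNat_mul 4 (c.cst _ _ hQ)))) (by norm_num) rfl
    have h3 : Sm w 0 (1 / 7 : K) := by
      have := sm_const w (((1 / 7 : ℚ) : ℚ) : k)
      rw [hcK] at this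
      simpa using this
    have h4 : SmP w 2 (C (1 / 7 : K) * (C e + 21 * X ^ 2 - 36 * (C μ * X + C ν))) :=
      spc (c.cmul h3 (c.sub (c.add _ _ _ (c.cst _ _ he) (c.ofNat_mul 21 pX2))
        (c.ofNat_mul 36 pM))) (by norm_num) rfl
    exact spc (c.pow h4 2) (by norm_num) rfl
  have pPol : SmP w 6 ((3 * X ^ 3 - C (78 / 7 : K) * X * (C μ * X + C ν) -
      C (3 / 28 * e + 3 / 2 * κ) * X - C (e1 / 32)) ^ 2 - ((X ^ 2 - 4 * (C μ * X + C ν)) *
        ((C (1 / 7 : K) * (C e + 21 * X ^ 2 - 36 * (C μ * X + C ν))) ^ 2 + 4 * C Q))) :=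
    c.sub (spc (c.pow pL 2) (by norm_num) rfl) pR
  by_cases hpol : ((3 * X ^ 3 - C (78 / 7 : K) * X * (C μ * X + C ν) -
      C (3 / 28 * e + 3 / 2 * κ) * X - C (e1 / 32)) ^ 2 - ((X ^ 2 - 4 * (C μ * X + C ν)) *
        ((C (1 / 7 : K) * (C e + 21 * X ^ 2 - 36 * (C μ * X + C ν))) ^ 2 + 4 * C Q)) : K[X]) = 0
  swap
  · left
    refine hroot 6 _ pPol hpol ?_ (by norm_num)
    simp only [eval_sub, eval_pow, eval_mul, eval_X, eval_C, eval_add, eval_ofNat]
    rw [← hP]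
    have e1' : 3 * S ^ 3 - 78 / 7 * S * P - (3 / 28 * e + 3 / 2 * κ) * S - e1 / 32 =
        (p - q) * (a - b) := h8.symm
    have e2' : (1 / 7 : K) * (e + 21 * S ^ 2 - 36 * P) = a + b := by
      linear_combination (-1 / 7 : K) * h7
    rw [e1', e2', h9]
    ring
  -- the line is invariant
  have hA : Sm w 2 (nab D l 1 μ + 20 / 7 * μ ^ 2 + ν - (e / 8 + 7 / 4 * κ)) := by
    have h3 : Sm w 2 (nab D l 1 μ) := by
      unfold nab
      refine (hD 1 μ hmu).sub ?_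
      have h4 := (hl.mul hmu)
      refine smc h4 (by norm_num) ?_
      push_cast
      ring
    have h4 : Sm w 2 (20 / 7 * μ ^ 2) := by
      have h5 := smn (((20 / 7 : ℚ) : ℚ) : k) (hcK _) (hmu.pow 2)
      refine smc h5 (by norm_num) ?_
      push_cast
      ring
    have h5 : Sm w 2 (e / 8 + 7 / 4 * κ) := by
      have h6 := (smn (((1 / 8 : ℚ) : ℚ) : k) (hcK _) he).add
          (smn (((7 / 4 : ℚ) : ℚ) : k) (hcK _) hκ)
      refine smc h6 rfl ?_
      push_cast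
      ring
    exact ((h3.add h4).add hnu).sub h5
  have hB : Sm w 3 (nab D l 2 ν + 20 / 7 * μ * ν + μ * (e / 7 + 2 * κ) - e1 / 64) := by
    have h3 : Sm w 3 (nab D l 2 ν) := by
      unfold nab
      refine (hD 2 ν hnu).sub ?_
      have h4 := smn (((2 : ℚ) : ℚ) : k) (hcK _) (hl.mul hnu)
      refine smc h4 (by norm_num) ?_
      push_cast
      ring
    have h4 : Sm w 3 (20 / 7 * μ * ν) := by
      have h5 := smn (((20 / 7 : ℚ) : ℚ) : k) (hcK _) (hmu.mul hnu)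
      refine smc h5 (by norm_num) ?_
      push_cast
      ring
    have h5 : Sm w 3 (μ * (e / 7 + 2 * κ)) := by
      have h6 := hmu.mul ((smn (((1 / 7 : ℚ) : ℚ) : k) (hcK _) he).add
          (smn (((2 : ℚ) : ℚ) : k) (hcK _) hκ))
      refine smc h6 rfl ?_
      push_cast
      ring
    have h6 : Sm w 3 (e1 / 64) := by
      have h7 := (smn (((1 / 64 : ℚ) : ℚ) : k) (hcK _) he1)
      refine smc h7 rfl ?_
      push_cast
      ring
    exact ((h3.add h4).add h5).sub h6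
  have pAB : SmP w 3 (C (nab D l 1 μ + 20 / 7 * μ ^ 2 + ν - (e / 8 + 7 / 4 * κ)) * X +
      C (nab D l 2 ν + 20 / 7 * μ * ν + μ * (e / 7 + 2 * κ) - e1 / 64)) :=
    c.add _ _ _ (c.cmul hA pX) (c.cst _ _ hB)
  by_cases hAB : (C (nab D l 1 μ + 20 / 7 * μ ^ 2 + ν - (e / 8 + 7 / 4 * κ)) * X +
      C (nab D l 2 ν + 20 / 7 * μ * ν + μ * (e / 7 + 2 * κ) - e1 / 64) : K[X]) = 0
  swap
  · left
    refine hroot 3 _ pAB hAB ?_ (by norm_num)
    simp only [eval_add, eval_mul, eval_X, eval_C]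
    have h12 : D P = D μ * S + μ * D S + D ν := by
      rw [hP, map_add, D.leibniz]
      simp only [smul_eq_mul]
      ring
    have hDS : D S = l * S + (-S ^ 2 + 20 / 7 * P + (e / 7 + 2 * κ)) := by
      rw [← h10]
      unfold nab
      push_cast
      ring
    unfold nab at h11 ⊢
    rw [h12, hDS, hP] at h11
    push_cast at h11 ⊢
    linear_combination h11
  right
  refine ⟨?_, sub_eq_zero.1 hpol⟩
  have h12 := congrArg (fun f : K[X] => f.coeff 1) hAB
  simp only [coeff_add, coeff_C_mul, coeff_X_one, coeff_C_succ, coeff_zero] at h12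
  linear_combination h12

end Pool.Agent.H86.FQ.LIN
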