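import Pool.Agent.H30.FQ.Targets2

/-!
Affine surfaces over the orbifold (module SRF of fq_modules, MP_70ba79_ag).
-/

set_option autoImplicit false

namespace Pool.Agent.H86.FQ.SRF

open Pool.Agent.H30.FQ SC Pool.Agent.H27.LV

/-- the degree of a tuple is at most the sum of the numbers of poles -/
lemma deg_le {k K : Type} [Field k] [Field K] [Algebra k K] {n : ℕ} (z : Fin n → K)
    (hfin : ∀ i, {v : DV k K | max 0 (-(v.ord (z i))) ≠ 0}.Finite) :
    (deg k z : ℤ) ≤ ∑ i, hh k (z i) := by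
  have hT : (⋃ i, {v : DV k K | max 0 (-(v.ord (z i))) ≠ 0}).Finite := Set.finite_iUnion hfin
  have h1 : ∀ i, hh k (z i) = ∑ v ∈ hT.toFinset, max 0 (-(v.ord (z i))) := by
    intro i
    unfold hh
    apply finsum_eq_sum_of_support_subset
    intro v hv
    rw [Set.Finite.coe_toFinset]
    exact Set.mem_iUnion.2 ⟨i, hv⟩
  have hpo : ∀ v : DV k K, (poleOrder v z : ℤ) ≤ ∑ i, max 0 (-(v.ord (z i))) := by
    intro v
    have h2 : poleOrder v z ≤ ∑ i, (-(v.ord (z i))).toNat := by
      unfold poleOrder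
      exact Finset.sup_le fun i _ =>
        Finset.single_le_sum (f := fun i => (-(v.ord (z i))).toNat) (fun j _ => Nat.zero_le _)
          (Finset.mem_univ i)
    have h3 : ((∑ i, (-(v.ord (z i))).toNat : ℕ) : ℤ) = ∑ i, max 0 (-(v.ord (z i))) := by
      push_cast
      apply Finset.sum_congr rfl
      intro i _
      rw [Int.toNat_eq_max, max_comm]
    rw [← h3]
    exact_mod_cast h2
  have h4 : deg k z = ∑ v ∈ hT.toFinset, poleOrder v z := by
    unfold deg
    apply finsum_eq_sum_of_support_subset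
    intro v hv
    rw [Set.Finite.coe_toFinset]
    by_contra hcon
    apply hv
    have h5 : ∀ i, max 0 (-(v.ord (z i))) = 0 := by
      intro i
      by_contra h6
      exact hcon (Set.mem_iUnion.2 ⟨i, h6⟩)
    have h6 := hpo v
    rw [Finset.sum_congr rfl fun i _ => h5 i, Finset.sum_const_zero] at h6
    have h7 : (0 : ℤ) ≤ (poleOrder v z : ℤ) := Int.natCast_nonneg _
    exact_mod_cast le_antisymm h6 h7
  rw [h4]
  push_cast
  calc ∑ v ∈ hT.toFinset, (poleOrder v z : ℤ)
      ≤ ∑ v ∈ hT.toFinset, ∑ i, max 0 (-(v.ord (z i))) := Finset.sum_le_sum fun v _ => hpo v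
    _ = ∑ i, ∑ v ∈ hT.toFinset, max 0 (-(v.ord (z i))) := Finset.sum_comm
    _ = ∑ i, hh k (z i) := Finset.sum_congr rfl fun i _ => (h1 i).symm

/-- algebraic equation of an element over two algebraically independent ones -/
lemma exists_eq {k A : Type} [Field k] [CommRing A] [IsDomain A] [Algebra k A]
    (htr : Algebra.trdeg k A = 2) {f g : A} (hfg : AlgebraicIndependent k ![f, g]) (x : A) :
    ∃ p : Polynomial (MvPolynomial (Fin 2) k), p ≠ 0 ∧
      (p.map (MvPolynomial.aeval (R := k) ![f, g]).toRingHom).eval x = 0 := by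
  have hb : IsTranscendenceBasis k ![f, g] := by
    apply hfg.isTranscendenceBasis_of_trdeg_le_of_finite
    rw [htr]
    simp
  have hal := hb.isAlgebraic
  obtain ⟨p, hp0, hp⟩ := hal.isAlgebraic x
  let e := hfg.aevalEquiv
  have hinj : Function.Injective (Polynomial.map
      (e.symm : Algebra.adjoin k (Set.range ![f, g]) →+* MvPolynomial (Fin 2) k)) :=
    Polynomial.map_injective _ e.symm.injective
  refine ⟨p.map (e.symm : _ →+* _), ?_, ?_⟩
  · intro h
    apply hp0
    apply hinj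
    rw [Polynomial.map_zero]
    exact h
  · rw [Polynomial.map_map]
    have h1 : ((MvPolynomial.aeval (R := k) ![f, g]).toRingHom.comp (e.symm : _ →+* _)) =
        algebraMap (Algebra.adjoin k (Set.range ![f, g])) A := by
      ext y
      obtain ⟨z, rfl⟩ := e.surjective y
      have h2 := hfg.algebraMap_aevalEquiv z
      simp only [RingHom.comp_apply]
      have h3 : (e.symm : _ →+* _) (e z) = z := e.symm_apply_apply z
      rw [h3]
      exact h2.symm
    rw [h1, Polynomial.eval_map_algebraMap]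
    exact hp

/-- common bound of the total degrees of the coefficients -/
lemma exists_deg {k : Type} [Field k] {n : ℕ} (p : Fin n → Polynomial (MvPolynomial (Fin 2) k)) :
    ∃ d : ℕ, ∀ i j, ((p i).coeff j).totalDegree ≤ d := by
  refine ⟨Finset.univ.sup fun i => (p i).support.sup fun j => ((p i).coeff j).totalDegree, ?_⟩
  intro i j
  by_cases h : j ∈ (p i).support
  · exact le_trans (Finset.le_sup (f := fun j => ((p i).coeff j).totalDegree) h)
      (Finset.le_sup (f := fun i => (p i).support.sup fun j => ((p i).coeff j).totalDegree)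
        (Finset.mem_univ i))
  · rw [Polynomial.notMem_support_iff] at h
    rw [h, MvPolynomial.totalDegree_zero]
    exact Nat.zero_le _

/-- the local condition -/
lemma ord_of_locFull {k K A : Type} [Field k] [Field K] [Algebra k K] [CommRing A] [Algebra k A]
    (v : DV k K) (φ : A →ₐ[k] K) (hφ : ∀ a, 0 ≤ v.ord (φ a)) {f : A} (hf : LocFull 4 f)
    (hf0 : φ f ≠ 0) : v.ord (φ f) = 0 ∨ 4 ≤ v.ord (φ f) := by
  have hge : ∀ a, ge v 0 (φ a) := fun a => Or.inr (hφ a)
  let P : Ideal A :=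
    { carrier := {a | ge v 1 (φ a)}
      add_mem' := fun {a b} ha hb => by
        simp only [Set.mem_ofPred_eq, map_add] at *
        exact ge.add ha hb
      zero_mem' := by
        simp only [Set.mem_ofPred_eq, map_zero]
        exact Or.inl rfl
      smul_mem' := fun c {a} ha => by
        simp only [Set.mem_ofPred_eq, smul_eq_mul, map_mul] at *
        have := ge.mul (hge c) ha
        rwa [zero_add] at this }
  have hPm : ∀ a, a ∈ P ↔ ge v 1 (φ a) := fun a => Iff.rfl
  have hP : P ≠ ⊤ := by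
    intro h
    have h1 : (1 : A) ∈ P := by rw [h]; trivial
    rw [hPm, map_one] at h1
    rcases h1 with h1 | h1
    · exact one_ne_zero h1
    · rw [v.ord_one] at h1
      omega
  obtain ⟨M, hM, hPM⟩ := P.exists_le_maximal hP
  obtain ⟨s, t, n, γ, μ, hs, ht, hμ, heq⟩ := hf M hM
  have hunit : ∀ a, a ∉ M → φ a ≠ 0 ∧ v.ord (φ a) = 0 := by
    intro a ha
    have h1 : ¬ ge v 1 (φ a) := fun h => ha (hPM ((hPm a).2 h))
    unfold ge at h1
    push Not at h1
    have := hφ a
    exact ⟨h1.1, by omega⟩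
  obtain ⟨hs0, hs1⟩ := hunit s hs
  obtain ⟨ht0, ht1⟩ := hunit t ht
  have h1 : φ s * φ f = φ t * ∏ i, φ (γ i) ^ μ i := by
    have := congrArg φ heq
    simpa [map_mul, map_prod, map_pow] using this
  have hprod : ∏ i, φ (γ i) ^ μ i ≠ 0 := by
    intro h
    rw [h, mul_zero] at h1
    exact mul_ne_zero hs0 hf0 h1
  have hne : ∀ i ∈ (Finset.univ : Finset (Fin n)), φ (γ i) ^ μ i ≠ 0 :=
    Finset.prod_ne_zero_iff.1 hprod
  have h2 : v.ord (φ f) = ∑ i, (μ i : ℤ) * v.ord (φ (γ i)) := by
    have h3 := congrArg v.ord h1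
    rw [v.ord_mul _ _ hs0 hf0, v.ord_mul _ _ ht0 hprod, hs1, ht1, v.ord_prod _ _ hne] at h3
    rw [zero_add, zero_add] at h3
    rw [h3]
    exact Finset.sum_congr rfl fun i _ => v.ord_pow _ _
  rw [h2]
  by_cases hz : ∀ i, v.ord (φ (γ i)) = 0
  · left
    exact Finset.sum_eq_zero fun i _ => by rw [hz i, mul_zero]
  · right
    push Not at hz
    obtain ⟨i, hi⟩ := hz
    have hi1 : 1 ≤ v.ord (φ (γ i)) := by
      have := hφ (γ i)
      omega
    have hi4 : (4 : ℤ) ≤ μ i := by exact_mod_cast hμ i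
    calc (4 : ℤ) ≤ (μ i : ℤ) * v.ord (φ (γ i)) := by nlinarith
      _ ≤ ∑ i, (μ i : ℤ) * v.ord (φ (γ i)) :=
        Finset.single_le_sum (f := fun i => (μ i : ℤ) * v.ord (φ (γ i)))
          (fun j _ => mul_nonneg (Int.natCast_nonneg _) (hφ _)) (Finset.mem_univ i)

/-- algebraic elements over an algebraically closed field -/
lemma const_of_eq {k K : Type} [Field k] [IsAlgClosed k] [Field K] [Algebra k K]
    {X Y z : K} (hX : X ∈ Set.range (algebraMap k K)) (hY : Y ∈ Set.range (algebraMap k K))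
    (p : Polynomial (MvPolynomial (Fin 2) k))
    (hc : MvPolynomial.aeval ![X, Y] p.leadingCoeff ≠ 0)
    (hp : (p.map (MvPolynomial.aeval (R := k) ![X, Y]).toRingHom).eval z = 0) :
    z ∈ Set.range (algebraMap k K) := by
  obtain ⟨x, rfl⟩ := hX
  obtain ⟨y, rfl⟩ := hY
  have h1 : (MvPolynomial.aeval (R := k) ![algebraMap k K x, algebraMap k K y]).toRingHom =
      (algebraMap k K).comp (MvPolynomial.aeval (R := k) ![x, y]).toRingHom := by
    apply MvPolynomial.ringHom_ext
    · intro r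
      simp
    · intro i
      fin_cases i <;> simp
  have h2 : ∀ q : MvPolynomial (Fin 2) k,
      MvPolynomial.aeval ![algebraMap k K x, algebraMap k K y] q =
        algebraMap k K (MvPolynomial.aeval ![x, y] q) := fun q => RingHom.congr_fun h1 q
  rw [h1, ← Polynomial.map_map, Polynomial.eval_map_algebraMap] at hp
  have hne : p.map (MvPolynomial.aeval (R := k) ![x, y]).toRingHom ≠ 0 := by
    intro h
    apply hc
    rw [h2]
    have h3 := congrArg (fun q : Polynomial k => q.coeff p.natDegree) h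
    simp only [Polynomial.coeff_map, Polynomial.coeff_zero] at h3
    have h4 : MvPolynomial.aeval ![x, y] p.leadingCoeff = 0 := h3
    rw [h4, map_zero]
  have hal : IsAlgebraic k z := ⟨_, hne, hp⟩
  have hint : IsIntegral k z := hal.isIntegral
  have hdeg := IsAlgClosed.degree_eq_one_of_irreducible k (minpoly.irreducible hint)
  exact minpoly.mem_range_of_degree_eq_one k z hdeg

open Classical in
theorem srf (h1 : T_MAIN) (h2 : T_EXC) (h3 : T_ALB) (h4 : T_HHI) : T_SRF := by
  intro k _ _ _ A _ _ _ n x hx htr f g hfg hf hg hu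
  obtain ⟨E, hE0, hE⟩ := h2 k
  choose p hp0 hp using fun i => exists_eq htr hfg (x i)
  obtain ⟨d, hd⟩ := exists_deg p
  let Ψ : MvPolynomial (Fin 2) k := MvPolynomial.X 0 * MvPolynomial.X 1 * (MvPolynomial.X 0 - 1) *
    (MvPolynomial.X 1 - 1) * (MvPolynomial.X 0 + MvPolynomial.X 1) * E * ∏ i, (p i).leadingCoeff
  have hΨ : Ψ ≠ 0 := by
    have hX0 : (MvPolynomial.X 0 : MvPolynomial (Fin 2) k) ≠ 0 := MvPolynomial.X_ne_zero 0
    have hX1 : (MvPolynomial.X 1 : MvPolynomial (Fin 2) k) ≠ 0 := MvPolynomial.X_ne_zero 1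
    have e0 : (MvPolynomial.X 0 - 1 : MvPolynomial (Fin 2) k) ≠ 0 := by
      intro h
      have := congrArg (MvPolynomial.eval ![(0 : k), 0]) h
      simp at this
    have e1 : (MvPolynomial.X 1 - 1 : MvPolynomial (Fin 2) k) ≠ 0 := by
      intro h
      have := congrArg (MvPolynomial.eval ![(0 : k), 0]) h
      simp at this
    have e2 : (MvPolynomial.X 0 + MvPolynomial.X 1 : MvPolynomial (Fin 2) k) ≠ 0 := by
      intro h
      have := congrArg (MvPolynomial.eval ![(1 : k), 0]) h
      simp at this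
    have e3 : ∏ i, (p i).leadingCoeff ≠ 0 :=
      Finset.prod_ne_zero_iff.2 fun i _ => Polynomial.leadingCoeff_ne_zero.2 (hp0 i)
    exact mul_ne_zero (mul_ne_zero (mul_ne_zero (mul_ne_zero (mul_ne_zero (mul_ne_zero
      hX0 hX1) e0) e1) e2) hE0) e3
  refine ⟨n * (d * 653), MvPolynomial.aeval ![f, g] Ψ, ?_, ?_⟩
  · intro h
    apply hΨ
    have hinj : Function.Injective (MvPolynomial.aeval (R := k) ![f, g]) := hfg
    exact hinj (by rw [h, map_zero])
  intro K _ _ _ htK S φ hφ hψ hnc D hD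
  have hcomp : ∀ q : MvPolynomial (Fin 2) k, φ (MvPolynomial.aeval ![f, g] q) =
      MvPolynomial.aeval ![φ f, φ g] q := by
    intro q
    have h5 : (φ.comp (MvPolynomial.aeval (R := k) ![f, g])) = MvPolynomial.aeval ![φ f, φ g] := by
      apply MvPolynomial.algHom_ext
      intro i
      fin_cases i <;> simp
    exact AlgHom.congr_fun h5 q
  rw [hcomp] at hψ
  have hψ2 : (φ f) * (φ g) * (φ f - 1) * (φ g - 1) * (φ f + φ g) *
      MvPolynomial.aeval ![φ f, φ g] E *
      ∏ i, MvPolynomial.aeval ![φ f, φ g] (p i).leadingCoeff ≠ 0 := by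
    have h5 : MvPolynomial.aeval ![φ f, φ g] Ψ = (φ f) * (φ g) * (φ f - 1) * (φ g - 1) *
      (φ f + φ g) * MvPolynomial.aeval ![φ f, φ g] E *
      ∏ i, MvPolynomial.aeval ![φ f, φ g] (p i).leadingCoeff := by
      simp [Ψ, map_prod]
    rw [← h5]
    exact hψ
  obtain ⟨hψ3, hc⟩ := ne_zero_and_ne_zero_of_mul hψ2
  obtain ⟨hψ4, hEne⟩ := ne_zero_and_ne_zero_of_mul hψ3
  obtain ⟨hψ5, hXY⟩ := ne_zero_and_ne_zero_of_mul hψ4
  obtain ⟨hψ6, hY1⟩ := ne_zero_and_ne_zero_of_mul hψ5
  obtain ⟨hψ7, hX1⟩ := ne_zero_and_ne_zero_of_mul hψ6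
  obtain ⟨hX0, hY0⟩ := ne_zero_and_ne_zero_of_mul hψ7
  have hci : ∀ i, MvPolynomial.aeval ![φ f, φ g] (p i).leadingCoeff ≠ 0 := fun i =>
    Finset.prod_ne_zero_iff.1 hc i (Finset.mem_univ i)
  -- the unit
  obtain ⟨U, hU⟩ := hu
  have hUU : φ U.val * φ U.inv = 1 := by
    rw [← map_mul, U.val_inv, map_one]
  have hu0 : φ f + φ g - 1 = φ U.val := by
    rw [show U.val = (U : A) from rfl, hU, map_sub, map_add, map_one]
  have hUne : φ U.val ≠ 0 := left_ne_zero_of_mul_eq_one hUU
  have hUine : φ U.inv ≠ 0 := right_ne_zero_of_mul_eq_one hUU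
  have hOrb : Orb S (φ f) (φ g) := by
    refine ⟨hX0, hY0, by rw [hu0]; exact hUne, ?_, ?_, ?_⟩
    · intro v hv
      rw [hu0]
      have h5 := congrArg v.ord hUU
      rw [v.ord_mul _ _ hUne hUine, v.ord_one] at h5
      have h6 := hφ v hv U.val
      have h7 := hφ v hv U.inv
      omega
    · intro v hv
      exact ord_of_locFull v φ (hφ v hv) hf hX0
    · intro v hv
      exact ord_of_locFull v φ (hφ v hv) hg hY0
  have hroot : ∀ i, ((p i).map (MvPolynomial.aeval (R := k) ![φ f, φ g]).toRingHom).eval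
      (φ (x i)) = 0 := by
    intro i
    have h5 := congrArg φ (hp i)
    rw [map_zero] at h5
    have h6 : (MvPolynomial.aeval (R := k) ![φ f, φ g]).toRingHom =
        (φ : A →+* K).comp (MvPolynomial.aeval (R := k) ![f, g]).toRingHom := by
      apply MvPolynomial.ringHom_ext
      · intro r
        simp
      · intro j
        fin_cases j <;> simp
    rw [h6, ← Polynomial.map_map, Polynomial.eval_map, ← RingHom.coe_coe φ]
    rw [← RingHom.coe_coe φ] at h5
    rw [Polynomial.eval₂_at_apply]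
    exact h5
  have hncst : ¬ (φ f ∈ Set.range (algebraMap k K) ∧ φ g ∈ Set.range (algebraMap k K)) := by
    rintro ⟨hfc, hgc⟩
    obtain ⟨a, ha⟩ := hnc
    apply ha
    have h5 : ((⊥ : Subalgebra k K).comap φ) = ⊤ := by
      rw [eq_top_iff, ← hx]
      apply Algebra.adjoin_le
      rintro _ ⟨i, rfl⟩
      rw [SetLike.mem_coe, Subalgebra.mem_comap, Algebra.mem_bot]
      exact const_of_eq hfc hgc (p i) (hci i) (hroot i)
    have h6 : a ∈ ((⊥ : Subalgebra k K).comap φ) := by rw [h5]; trivial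
    rw [Subalgebra.mem_comap, Algebra.mem_bot] at h6
    exact h6
  have hmain := h1 k K htK S (φ f) (φ g) hOrb hncst (sub_ne_zero.1 hX1) (sub_ne_zero.1 hY1) hXY
    (fun hW => hEne (hE K (φ f) (φ g) (Or.inl hW))) (fun hW => hEne (hE K (φ f) (φ g) (Or.inr hW)))
    D hD
  have hhi : ∀ i, hh k (φ (x i)) ≤ d * deg k ![φ f, φ g] := fun i =>
    h3 k K htK d (p i) (φ f) (φ g) (φ (x i)) (hd i) (hci i) (hroot i)
  have hfin := fun i => ((h4 k K htK).1 (φ (x i))).2.1
  have h5 := deg_le (fun i => φ (x i)) hfin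
  calc (deg k (fun i => φ (x i)) : ℤ) ≤ ∑ i, hh k (φ (x i)) := h5
    _ ≤ ∑ _i : Fin n, ((d : ℤ) * deg k ![φ f, φ g]) := Finset.sum_le_sum fun i _ => hhi i
    _ = n * (d * deg k ![φ f, φ g]) := by simp
    _ ≤ n * (d * (653 * (canDeg D + S.card))) := by
      apply mul_le_mul_of_nonneg_left _ (Int.natCast_nonneg _)
      exact mul_le_mul_of_nonneg_left hmain (Int.natCast_nonneg _)
    _ = ((n * (d * 653) : ℕ) : ℤ) * (canDeg D + S.card) := by
      push_cast
      ring

end Pool.Agent.H86.FQ.SRF
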