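import Pool.Agent.H30.FQ.Targets

/-!
The second exceptional curve (module W0I of fq_modules, MP_70ba79_ag).
-/

set_option autoImplicit false

namespace Pool.Agent.H86.FQ.W0I

open Pool.Agent.H30.FQ

variable {K : Type} [Field K] [CharZero K]

/-- the parameter `t` -/
lemma param {p q w : K} (hw : w ^ 2 = -3) (hpq : p ≠ q) (hP : p * q ≠ 0) (hS : p + q ≠ 0)
    (hR1 : 27 * (p * q) ^ 2 + p * q = 7 / 16 * (p + q) ^ 2) :
    ∃ t : K, t ≠ 0 ∧ t ^ 2 - 1 ≠ 0 ∧ t ^ 2 + w * t + 1 ≠ 0 ∧ t ^ 2 - w * t + 1 ≠ 0 ∧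
      6 * (t ^ 2 + w * t + 1) * p = t ^ 2 - 1 ∧ 6 * (t ^ 2 - w * t + 1) * q = t ^ 2 - 1 := by
  have hd : p - q ≠ 0 := sub_ne_zero.2 hpq
  have hw0 : w ≠ 0 := by
    intro h
    rw [h] at hw
    norm_num at hw
  have hPS : (p + q) ^ 2 = 16 / 7 * (p * q) * (27 * (p * q) + 1) := by
    linear_combination (-16 / 7 : K) * hR1
  have h27 : 27 * (p * q) + 1 ≠ 0 := by
    intro h
    rw [h, mul_zero] at hPS
    exact hS (pow_eq_zero_iff (n := 2) two_ne_zero |>.1 hPS)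
  obtain ⟨ρ, hρS⟩ : ∃ ρ : K, ρ * (p + q) = 12 * (p * q) :=
    ⟨12 * (p * q) / (p + q), div_mul_cancel₀ _ hS⟩
  have hρ0 : ρ ≠ 0 := by
    intro h
    rw [h, zero_mul] at hρS
    exact (mul_ne_zero (by norm_num) hP) hρS.symm
  have hρ : ρ ^ 2 * (27 * (p * q) + 1) = 63 * (p * q) := by
    have h1 : (p + q) ^ 2 * (ρ ^ 2 * (27 * (p * q) + 1) - 63 * (p * q)) = 0 := by
      have h2 : (ρ * (p + q)) ^ 2 = (12 * (p * q)) ^ 2 := by rw [hρS]
      linear_combination (27 * (p * q) + 1) * h2 - 63 * (p * q) * hPS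
    rcases mul_eq_zero.1 h1 with h2 | h2
    · exact (hS (pow_eq_zero_iff (n := 2) two_ne_zero |>.1 h2)).elim
    · exact sub_eq_zero.1 h2
  have hρ1 : ρ ^ 2 ≠ 1 := by
    intro h
    rw [h] at hρ
    have h1 : p * q = 1 / 36 := by linear_combination (-1 / 36 : K) * hρ
    have h2 : (p - q) ^ 2 = 0 := by
      have h3 : (p - q) ^ 2 = (p + q) ^ 2 - 4 * (p * q) := by ring
      rw [h3, hPS, h1]
      norm_num
    exact hd (pow_eq_zero_iff (n := 2) two_ne_zero |>.1 h2)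
  have hm : 1 - ρ ≠ 0 := by
    intro h
    apply hρ1
    have : ρ = 1 := by linear_combination -h
    rw [this]
    norm_num
  have hp' : 1 + ρ ≠ 0 := by
    intro h
    apply hρ1
    have : ρ = -1 := by linear_combination h
    rw [this]
    norm_num
  obtain ⟨s, hs⟩ : ∃ s : K, s * (1 - ρ) = 1 + ρ := ⟨(1 + ρ) / (1 - ρ), div_mul_cancel₀ _ hm⟩
  have hs0 : s ≠ 0 := by
    intro h
    rw [h, zero_mul] at hs
    exact hp' hs.symm
  have hρs : ρ * (s + 1) = s - 1 := by linear_combination -hs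
  have hs1 : s + 1 ≠ 0 := by
    intro h
    have h1 : s = -1 := by linear_combination h
    rw [h1] at hs
    have h2 : (2 : K) = 0 := by linear_combination -hs
    norm_num at h2
  have hs2 : s - 1 ≠ 0 := by
    rw [← hρs]
    exact mul_ne_zero hρ0 hs1
  have hNP : 36 * (s ^ 2 + 5 * s + 1) * (p * q) = (s - 1) ^ 2 := by
    have h1 : (ρ * (s + 1)) ^ 2 = (s - 1) ^ 2 := by rw [hρs]
    linear_combination (27 * (p * q) + 1) * h1 - (s + 1) ^ 2 * hρ
  have hN : s ^ 2 + 5 * s + 1 ≠ 0 := by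
    intro h
    rw [h] at hNP
    apply pow_ne_zero 2 hs2
    rw [← hNP]
    ring
  have hSN : 3 * (s ^ 2 + 5 * s + 1) * (p + q) = s ^ 2 - 1 := by
    have h1 : (s - 1) * (3 * (s ^ 2 + 5 * s + 1) * (p + q) - (s ^ 2 - 1)) = 0 := by
      have h2 : (p + q) * (s - 1) = 12 * (p * q) * (s + 1) := by
        rw [← hρs]
        linear_combination (s + 1) * hρS
      linear_combination 3 * (s ^ 2 + 5 * s + 1) * h2 + (s + 1) * hNP
    rcases mul_eq_zero.1 h1 with h2 | h2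
    · exact (hs2 h2).elim
    · exact sub_eq_zero.1 h2
  have hdN : 3 * (s ^ 2 + 5 * s + 1) ^ 2 * (p - q) ^ 2 = -s * (s - 1) ^ 2 := by
    have h1 : (3 * (s ^ 2 + 5 * s + 1) * (p + q)) ^ 2 = (s ^ 2 - 1) ^ 2 := by rw [hSN]
    linear_combination (1 / 3 : K) * h1 - (1 / 3 : K) * (s ^ 2 + 5 * s + 1) * hNP
  obtain ⟨t, ht⟩ : ∃ t : K, t * (s - 1) = w * (p - q) * (s ^ 2 + 5 * s + 1) :=
    ⟨w * (p - q) * (s ^ 2 + 5 * s + 1) / (s - 1), div_mul_cancel₀ _ hs2⟩
  have hts : s = t ^ 2 := by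
    have h1 : (s - 1) ^ 2 * (s - t ^ 2) = 0 := by
      have h2 : (t * (s - 1)) ^ 2 = (w * (p - q) * (s ^ 2 + 5 * s + 1)) ^ 2 := by rw [ht]
      have h3 : (w * (p - q) * (s ^ 2 + 5 * s + 1)) ^ 2 =
          w ^ 2 * ((s ^ 2 + 5 * s + 1) ^ 2 * (p - q) ^ 2) := by ring
      rw [h3, hw] at h2
      linear_combination (-1 : K) * h2 + hdN
    rcases mul_eq_zero.1 h1 with h2 | h2
    · exact (pow_ne_zero 2 hs2 h2).elim
    · exact sub_eq_zero.1 h2
  subst hts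
  have hM : (t ^ 2 + w * t + 1) * (t ^ 2 - w * t + 1) = (t ^ 2) ^ 2 + 5 * t ^ 2 + 1 := by
    linear_combination (-t ^ 2) * hw
  have hM1 : t ^ 2 + w * t + 1 ≠ 0 := by
    intro h
    rw [h, zero_mul] at hM
    exact hN hM.symm
  have hM2 : t ^ 2 - w * t + 1 ≠ 0 := by
    intro h
    rw [h, mul_zero] at hM
    exact hN hM.symm
  have h3d : 3 * ((t ^ 2) ^ 2 + 5 * t ^ 2 + 1) * (p - q) = -(w * t * (t ^ 2 - 1)) := by
    linear_combination w * ht + ((p - q) * ((t ^ 2) ^ 2 + 5 * t ^ 2 + 1)) * hw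
  refine ⟨t, ?_, hs2, hM1, hM2, ?_, ?_⟩
  · intro h
    apply hs0
    rw [h]
    norm_num
  · have h1 : (t ^ 2 - w * t + 1) * (6 * (t ^ 2 + w * t + 1) * p - (t ^ 2 - 1)) = 0 := by
      linear_combination hSN + h3d + 6 * p * hM
    rcases mul_eq_zero.1 h1 with h2 | h2
    · exact (hM2 h2).elim
    · exact sub_eq_zero.1 h2
  · have h1 : (t ^ 2 + w * t + 1) * (6 * (t ^ 2 - w * t + 1) * q - (t ^ 2 - 1)) = 0 := by
      linear_combination hSN - h3d + 6 * q * hM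
    rcases mul_eq_zero.1 h1 with h2 | h2
    · exact (hM1 h2).elim
    · exact sub_eq_zero.1 h2

/-- the values of `a` and `b` -/
lemma vals {p q a b w t : K} (hw : w ^ 2 = -3) (ht0 : t ≠ 0) (ht1 : t ^ 2 - 1 ≠ 0)
    (hM1 : t ^ 2 + w * t + 1 ≠ 0) (hM2 : t ^ 2 - w * t + 1 ≠ 0)
    (e1 : 6 * (t ^ 2 + w * t + 1) * p = t ^ 2 - 1) (e2 : 6 * (t ^ 2 - w * t + 1) * q = t ^ 2 - 1)
    (hR2 : 7 * (a + b) = -(47 / 72) + 21 * (p + q) ^ 2 - 36 * (p * q))
    (hR3 : (p - q) * (a - b) = 3 * (p + q) ^ 3 - 78 / 7 * (p + q) * (p * q) - (p + q) / 42) :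
    144 * (t ^ 2 + w * t + 1) ^ 2 * a = 7 * (t ^ 2 - w * t + 1) ^ 2 ∧
      144 * (t ^ 2 - w * t + 1) ^ 2 * b = 7 * (t ^ 2 + w * t + 1) ^ 2 := by
  have hw0 : w ≠ 0 := by
    intro h
    rw [h] at hw
    norm_num at hw
  obtain ⟨x, hx⟩ : ∃ x : K, x = t ^ 2 + w * t + 1 := ⟨_, rfl⟩
  obtain ⟨y, hy⟩ : ∃ y : K, y = t ^ 2 - w * t + 1 := ⟨_, rfl⟩
  obtain ⟨c, hc⟩ : ∃ c : K, c = t ^ 2 - 1 := ⟨_, rfl⟩
  rw [← hx] at hM1 e1 ⊢
  rw [← hy] at hM2 e2 ⊢
  rw [← hc] at ht1 e1 e2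
  have h1 : 6 * (x * y) * (p - q) = c * (y - x) := by linear_combination y * e1 - x * e2
  have h2 : 6 * (x * y) * (p + q) = c * (x + y) := by linear_combination y * e1 + x * e2
  have h3 : 36 * (x * y) ^ 2 * (p * q) = c ^ 2 * (x * y) := by
    linear_combination (x * y) * (6 * y * q) * e1 + (x * y) * c * e2
  have hd : c * (y - x) ≠ 0 := by
    have : c * (y - x) = c * (-2 * w * t) := by rw [hx, hy]; ring
    rw [this]
    exact mul_ne_zero ht1 (mul_ne_zero (mul_ne_zero (by norm_num) hw0) ht0)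
  have keya : 14 * a * (6 * (x * y) * (p - q)) * (36 * (x * y) ^ 2) =
      (6 * (x * y) * (p - q)) * (-(47 / 72) * (36 * (x * y) ^ 2) +
        21 * (6 * (x * y) * (p + q)) ^ 2 - 36 * (36 * (x * y) ^ 2 * (p * q))) +
      (21 * (6 * (x * y) * (p + q)) ^ 3 - 78 * (6 * (x * y) * (p + q)) *
        (36 * (x * y) ^ 2 * (p * q)) - (36 * (x * y) ^ 2) * (6 * (x * y) * (p + q)) / 6) := by
    linear_combination ((6 * (x * y)) ^ 3 * (p - q)) * hR2 + 7 * (6 * (x * y)) ^ 3 * hR3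
  have keyb : 14 * b * (6 * (x * y) * (p - q)) * (36 * (x * y) ^ 2) =
      (6 * (x * y) * (p - q)) * (-(47 / 72) * (36 * (x * y) ^ 2) +
        21 * (6 * (x * y) * (p + q)) ^ 2 - 36 * (36 * (x * y) ^ 2 * (p * q))) -
      (21 * (6 * (x * y) * (p + q)) ^ 3 - 78 * (6 * (x * y) * (p + q)) *
        (36 * (x * y) ^ 2 * (p * q)) - (36 * (x * y) ^ 2) * (6 * (x * y) * (p + q)) / 6) := by
    linear_combination ((6 * (x * y)) ^ 3 * (p - q)) * hR2 - 7 * (6 * (x * y)) ^ 3 * hR3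
  rw [h1, h2, h3] at keya keyb
  constructor
  · have h4 : (c * (y - x)) * (14 * a * (36 * (x * y) ^ 2)) = (c * (y - x)) * (49 / 2 * y ^ 4) := by
      rw [hx, hy, hc] at keya ⊢
      linear_combination keya + ((-16)*t^10 + (128)*t^9*w + (-208)*t^8*w^2 + (-32)*t^8 +
        (96)*t^7*w^3 + (128)*t^7*w + (-96)*t^5*w^3 + (-128)*t^5*w + (208)*t^4*w^2 + (32)*t^4 +
        (-128)*t^3*w + (16)*t^2) * hw
    have h5 := mul_left_cancel₀ hd h4
    have h6 : y ^ 2 * (144 * x ^ 2 * a - 7 * y ^ 2) = 0 := by linear_combination (2 / 7 : K) * h5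
    rcases mul_eq_zero.1 h6 with h7 | h7
    · exact (pow_ne_zero 2 hM2 h7).elim
    · exact sub_eq_zero.1 h7
  · have h4 : (c * (y - x)) * (14 * b * (36 * (x * y) ^ 2)) = (c * (y - x)) * (49 / 2 * x ^ 4) := by
      rw [hx, hy, hc] at keyb ⊢
      linear_combination keyb + ((16)*t^10 + (128)*t^9*w + (208)*t^8*w^2 + (32)*t^8 +
        (96)*t^7*w^3 + (128)*t^7*w + (-96)*t^5*w^3 + (-128)*t^5*w + (-208)*t^4*w^2 + (-32)*t^4 +
        (-128)*t^3*w + (-16)*t^2) * hw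
    have h5 := mul_left_cancel₀ hd h4
    have h6 : x ^ 2 * (144 * y ^ 2 * b - 7 * x ^ 2) = 0 := by linear_combination (2 / 7 : K) * h5
    rcases mul_eq_zero.1 h6 with h7 | h7
    · exact (pow_ne_zero 2 hM1 h7).elim
    · exact sub_eq_zero.1 h7

theorem w0i : T_W0I := by
  intro k K _ _ _ _ _ D p q a b X Y hX hY hXY hu ha hDp hDq hab hE hR1 hR2 hR3
  have hK0 : CharZero K := charZero_of_injective_algebraMap (algebraMap k K).injective
  have hne : a ≠ b := by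
    intro h
    have h1 : a * (X + Y) = 0 := by
      rw [← h] at hab
      linear_combination hab
    rcases mul_eq_zero.1 h1 with h2 | h2
    · exact ha h2
    · exact hXY h2
  have hpq : p ≠ q := by
    intro h
    apply hne
    rw [h] at hDp
    have h1 := hDp.symm.trans hDq
    linear_combination h1
  have hP : p * q ≠ 0 := by
    intro h
    have h1 : (p + q) ^ 2 = 0 := by
      rw [h] at hR1
      linear_combination (-16 / 7 : K) * hR1
    have h2 : p + q = 0 := pow_eq_zero_iff (n := 2) two_ne_zero |>.1 h1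
    have h3 : q = -p := by linear_combination h2
    rw [h3] at h
    have h4 : p = 0 := by
      have h5 : p * p = 0 := by linear_combination -h
      exact mul_self_eq_zero.1 h5
    apply hpq
    rw [h3, h4]
    simp
  have hS : p + q ≠ 0 := by
    intro h2
    have h3 : q = -p := by linear_combination h2
    have h4 : p * q * (27 * (p * q) + 1) = 0 := by
      rw [h2] at hR1
      linear_combination hR1
    have h5 : 27 * (p * q) + 1 = 0 := (mul_eq_zero.1 h4).resolve_left hP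
    have h6 : 27 * (p * p) = 1 := by
      rw [h3] at h5
      linear_combination -h5
    have hD27 : D (27 : K) = 0 := by
      have h := D.map_algebraMap (27 : k)
      rwa [map_ofNat] at h
    have h7 : D (27 * (p * p)) = 0 := by
      rw [h6]
      exact D.map_one_eq_zero
    have h8 : D (27 * (p * p)) = 54 * p * D p := by
      rw [D.leibniz, D.leibniz, hD27]
      simp only [smul_eq_mul]
      ring
    have hp0 : p ≠ 0 := left_ne_zero_of_mul hP
    have h9 : D p = 0 := by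
      rw [h8] at h7
      exact (mul_eq_zero.1 h7).resolve_left (mul_ne_zero (by norm_num) hp0)
    have h10 : D q = 0 := by rw [h3, map_neg, h9, neg_zero]
    apply hne
    rw [h9] at hDp
    rw [h10, h3] at hDq
    linear_combination hDq - hDp
  obtain ⟨ω, hω⟩ := IsAlgClosed.exists_pow_nat_eq (-3 : k) (n := 2) (by norm_num)
  have hw : (algebraMap k K ω) ^ 2 = -3 := by
    rw [← map_pow, hω, map_neg, map_ofNat]
  obtain ⟨w, hwω⟩ : ∃ w, w = algebraMap k K ω := ⟨_, rfl⟩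
  rw [← hwω] at hw
  obtain ⟨t, ht0, ht1, hM1, hM2, e1, e2⟩ := param hw hpq hP hS hR1
  obtain ⟨va, vb⟩ := vals hw ht0 ht1 hM1 hM2 e1 e2 hR2 hR3
  obtain ⟨x, hx⟩ : ∃ x : K, x = t ^ 2 + w * t + 1 := ⟨_, rfl⟩
  obtain ⟨y, hy⟩ : ∃ y : K, y = t ^ 2 - w * t + 1 := ⟨_, rfl⟩
  -- Y x^4 = - X y^4
  have hXYM : Y * x ^ 4 = -(X * y ^ 4) := by
    rw [← hx] at va vb hM1
    rw [← hy] at va vb hM2
    linear_combination (144 / 7 : K) * x ^ 2 * y ^ 2 * hab - (1 / 7 : K) * X * y ^ 2 * va -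
      (1 / 7 : K) * Y * x ^ 2 * vb
  -- the equation for u
  have hE2 : 6 * x ^ 4 * (X + Y - 1) =
      X * ((7 * t ^ 2 + 3 * w * t - 1) * x ^ 3 - (7 * t ^ 2 - 3 * w * t - 1) * y ^ 3) := by
    rw [← hx] at e1 hM1
    rw [← hy] at e2 hM2
    have h1 : 6 * x * (4 * (p + 1 / 8)) = 7 * t ^ 2 + 3 * w * t - 1 := by
      rw [hx] at e1 ⊢
      linear_combination 4 * e1
    have h2 : 6 * y * (4 * (q + 1 / 8)) = 7 * t ^ 2 - 3 * w * t - 1 := by
      rw [hy] at e2 ⊢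
      linear_combination 4 * e2
    rw [← hE]
    rw [← h1, ← h2]
    linear_combination (24 * (q + 1 / 8)) * hXYM
  have hI1 : (7 * t ^ 2 + 3 * w * t - 1) * x ^ 3 - (7 * t ^ 2 - 3 * w * t - 1) * y ^ 3 =
      48 * w * t ^ 7 := by
    rw [hx, hy]
    linear_combination ((32)*t^5*w + (16)*t^3*w) * hw
  have hI2 : x ^ 4 - y ^ 4 = 8 * w * t * (t ^ 6 + 1) := by
    rw [hx, hy]
    linear_combination ((8)*t^5*w + (8)*t^3*w) * hw
  have hu1 : x ^ 4 * (X + Y - 1) = 8 * w * t ^ 7 * X := by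
    rw [hI1] at hE2
    linear_combination (1 / 6 : K) * hE2
  have hu2 : x ^ 4 * (X + Y) = 8 * w * t * (t ^ 6 + 1) * X := by
    rw [← hI2]
    linear_combination hXYM
  have hx4 : 8 * w * t * X = x ^ 4 := by linear_combination hu1 - hu2
  have hx0 : x ^ 4 ≠ 0 := by
    rw [hx]
    exact pow_ne_zero 4 hM1
  refine ⟨ω, hω, t, ?_, ?_, ?_⟩
  · apply mul_left_cancel₀ hx0
    rw [hu1, ← hx4]
    ring
  · rw [← hwω, hx4, hx]
  · rw [← hwω]
    apply mul_left_cancel₀ hx0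
    rw [← hy]
    linear_combination (8 * w * t) * hXYM - y ^ 4 * hx4

end Pool.Agent.H86.FQ.W0I
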