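import Pool.Agent.H30.FQ.Targets

/-!
Helper lemmas for the modules LIN and ELM of fq_modules (MP_70ba79_ag).
-/

set_option autoImplicit false

namespace Pool.Agent.H86.FQ

open Pool.Agent.H30.FQ SC Pool.Agent.H27.LV Polynomial

variable {k K : Type} [Field k] [Field K] [Algebra k K]

lemma sm_num [CharZero k] (w : DV k K → ℤ) (n : ℕ) : Sm w 0 (n : K) := sm_natCast w n

lemma sm_ofK (w : DV k K → ℤ) {x : K} (c : k) (h : algebraMap k K c = x) : Sm w 0 x := by
  rw [← h]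
  exact sm_const w c

/-- closure properties of polynomials with small coefficients -/
structure Cl (w : DV k K → ℤ) : Prop where
  cst : ∀ (j : ℕ) (f : K), Sm w j f → SmP w j (C f)
  var : SmP w 1 (X : K[X])
  mul : ∀ (i j : ℕ) (p q : K[X]), SmP w i p → SmP w j q → SmP w (i + j) (p * q)
  add : ∀ (i : ℕ) (p q : K[X]), SmP w i p → SmP w i q → SmP w i (p + q)
  mono : ∀ (i j : ℕ) (p : K[X]), i ≤ j → SmP w i p → SmP w j p

lemma Cl.of (h : T_SMP) [CharZero k] (w : DV k K → ℤ) (hw : ∀ v, 0 ≤ w v) : Cl w := by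
  obtain ⟨h1, h2, h3, h4, h5⟩ := h k K w hw
  exact ⟨h1, h2, h3, h4, h5⟩

lemma Cl.neg {w : DV k K → ℤ} (c : Cl w) {i : ℕ} {p : K[X]} (hp : SmP w i p) : SmP w i (-p) := by
  have h1 : SmP w 0 (C (-1 : K)) := c.cst 0 _ (sm_ofK w (-1) (by simp))
  have h2 := c.mul 0 i _ _ h1 hp
  rw [zero_add] at h2
  simpa using h2

lemma Cl.sub {w : DV k K → ℤ} (c : Cl w) {i : ℕ} {p q : K[X]} (hp : SmP w i p)
    (hq : SmP w i q) : SmP w i (p - q) := by
  rw [sub_eq_add_neg]
  exact c.add i _ _ hp (c.neg hq)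

lemma Cl.nat {w : DV k K → ℤ} (c : Cl w) (n : ℕ) : SmP w 0 ((n : ℕ) : K[X]) := by
  have h1 : SmP w 0 (C (n : K)) := c.cst 0 _ (sm_natCast w n)
  simpa using h1

lemma Cl.ofNat_mul {w : DV k K → ℤ} (c : Cl w) (n : ℕ) [n.AtLeastTwo] {i : ℕ} {p : K[X]}
    (hp : SmP w i p) : SmP w i ((OfNat.ofNat n : K[X]) * p) := by
  have h := c.mul 0 i _ _ (c.nat (OfNat.ofNat n)) hp
  rw [zero_add, Nat.cast_ofNat] at h
  exact h

lemma Cl.pow {w : DV k K → ℤ} (c : Cl w) {i : ℕ} {p : K[X]} (hp : SmP w i p) (n : ℕ) :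
    SmP w (n * i) (p ^ n) := by
  induction n with
  | zero =>
    have := c.nat 1
    simpa using this
  | succ n ih =>
    rw [pow_succ, Nat.succ_mul]
    exact c.mul _ _ _ _ ih hp

lemma Cl.cmul {w : DV k K → ℤ} (c : Cl w) {i j : ℕ} {f : K} {p : K[X]} (hf : Sm w i f)
    (hp : SmP w j p) : SmP w (i + j) (C f * p) := c.mul _ _ _ _ (c.cst _ _ hf) hp

lemma smn {w : DV k K → ℤ} {j : ℕ} {f : K} {r : K} (c : k) (h : algebraMap k K c = r)
    (hf : Sm w j f) : Sm w j (r * f) := by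
  rw [← h]
  exact hf.const_mul c

lemma smc {w : DV k K → ℤ} {i j : ℕ} {f g : K} (hf : Sm w i f) (hij : i = j) (hfg : f = g) :
    Sm w j g := by
  subst hij hfg
  exact hf

lemma spc {w : DV k K → ℤ} {i j : ℕ} {f g : K[X]} (hf : SmP w i f) (hij : i = j)
    (hfg : f = g) : SmP w j g := by
  subst hij hfg
  exact hf

/-- a square root of a small element -/
lemma sm_sqrt {w : DV k K → ℤ} {x : K} (h : Sm w 2 (x ^ 2)) : Sm w 1 x := by
  intro v
  rcases h v with h0 | h0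
  · left
    exact pow_eq_zero_iff (n := 2) (by norm_num) |>.1 h0
  · right
    rw [v.ord_pow] at h0
    push_cast at h0 ⊢
    linarith

/-- roots of monic quadratic polynomials with small coefficients -/
lemma sm_quad {w : DV k K → ℤ} {x β γ : K} (h : x ^ 2 = β * x + γ) (hβ : Sm w 2 β)
    (hγ : Sm w 4 γ) : Sm w 2 x := by
  intro v
  by_cases hx : x = 0
  · left; exact hx
  right
  by_contra hcon
  push Not at hcon
  have h1 : ge v (2 * v.ord x + 1) (β * x) := by
    have h2 := (hβ v).mul (ge_of_ord (v := v) (x := x))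
    refine h2.mono ?_
    push_cast at hcon ⊢
    linarith
  have h3 : ge v (2 * v.ord x + 1) γ := by
    refine (hγ v).mono ?_
    push_cast at hcon ⊢
    linarith
  have h4 := h1.add h3
  rw [← h] at h4
  rcases h4 with h5 | h5
  · exact hx (pow_eq_zero_iff (n := 2) (by norm_num) |>.1 h5)
  · rw [v.ord_pow] at h5
    push_cast at h5
    linarith

lemma sum_nonneg {w : DV k K → ℤ} (hw : ∀ v, 0 ≤ w v) : 0 ≤ ∑ᶠ v, w v := finsum_nonneg hw

end Pool.Agent.H86.FQ
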